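import Mathlib

/-! Definitions: seminormal domains, associated primes of `Rⁿ/R`. -/

namespace Pool.Agent.R830.Semi

/-- `R` is seminormal: every `x` in the fraction field with `x^2 ∈ R` and `x^3 ∈ R` is in `R`. -/
def IsSeminormal (R : Type) [CommRing R] [IsDomain R] : Prop :=
  ∀ x : FractionRing R, x ^ 2 ∈ (algebraMap R (FractionRing R)).range →
    x ^ 3 ∈ (algebraMap R (FractionRing R)).range → x ∈ (algebraMap R (FractionRing R)).range

/-- `p` is an associated prime of the `R`-module `Rⁿ/R`, where `Rⁿ` is the integral closure of `R`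
in its fraction field: `p` is prime and there is `m ∈ Rⁿ` with `p = {r ∈ R : r m ∈ R}`. -/
def IsAssocNormal (R : Type) [CommRing R] [IsDomain R] (p : Ideal R) : Prop :=
  p.IsPrime ∧ ∃ m : FractionRing R, IsIntegral R m ∧
    ∀ r : R, r ∈ p ↔ algebraMap R (FractionRing R) r * m ∈ (algebraMap R (FractionRing R)).range

end Pool.Agent.R830.Semi
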