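import Mathlib
import Pool.Agent.R830.Semi.Defs

/-! Rings cut out by a square-zero derivation in characteristic two. -/

namespace Pool.Agent.R830.Semi

open UniqueFactorizationMonoid

/-- The data: `S` a Noetherian unique factorization domain of characteristic two with fraction
field `F`, and a square-zero derivation `D` of `F` with simple poles. -/
structure Data (S F : Type) [CommRing S] [IsDomain S] [Field F] [Algebra S F] where
  D : F →+ F
  leib : ∀ a b, D (a * b) = a * D b + b * D a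
  sq : ∀ a, D (D a) = 0
  exB : ∀ h : S, h ≠ 0 → Squarefree h → ∃ g y : S, Associated g h ∧
    algebraMap S F g * D (algebraMap S F y) = 1
  exC : ∀ π s : S, Prime π → π ∣ s → ∃ b c : S, ¬ π ∣ b ∧
    algebraMap S F b * D (algebraMap S F s) = algebraMap S F c

variable {S F : Type} [CommRing S] [IsDomain S] [UniqueFactorizationMonoid S]
  [IsNoetherianRing S] [CharP S 2] [Field F] [Algebra S F] [IsFractionRing S F]

variable (Δ : Data S F)

namespace Data

omit [UniqueFactorizationMonoid S] [IsNoetherianRing S] [CharP S 2] [IsFractionRing S F] in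
theorem D_one : Δ.D 1 = 0 := by
  have h := Δ.leib 1 1
  rw [mul_one, one_mul] at h
  have h2 : Δ.D 1 + 0 = Δ.D 1 + Δ.D 1 := by rw [add_zero]; exact h
  exact (add_left_cancel h2).symm

theorem two_eq_zero (S F : Type) [CommRing S] [CharP S 2] [Field F] [Algebra S F] :
    (2 : F) = 0 := by
  have h : ((2 : ℕ) : S) = 0 := CharP.cast_eq_zero S 2
  have h2 : algebraMap S F ((2 : ℕ) : S) = 0 := by rw [h, map_zero]
  rw [map_natCast] at h2
  exact_mod_cast h2

omit [UniqueFactorizationMonoid S] [IsNoetherianRing S] [IsFractionRing S F] in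
theorem D_sq (a : F) : Δ.D (a ^ 2) = 0 := by
  rw [pow_two, Δ.leib, ← two_mul, two_eq_zero S F, zero_mul]

omit [UniqueFactorizationMonoid S] [IsNoetherianRing S] [CharP S 2] [IsFractionRing S F] in
/-- if `g D(y) = 1` then `D g = 0` -/
theorem D_eq_zero_of {g y : F} (h : g * Δ.D y = 1) : Δ.D g = 0 := by
  have h1 := congrArg Δ.D h
  rw [Δ.leib, Δ.sq, mul_zero, zero_add, D_one] at h1
  rcases mul_eq_zero.1 h1 with h2 | h2
  · rw [h2, mul_zero] at h
    exact absurd h zero_ne_one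
  · exact h2

/-- `S₀ = {s : D s = 0}` -/
def S0 : Subring S where
  carrier := {s | Δ.D (algebraMap S F s) = 0}
  mul_mem' := by
    intro a b ha hb
    simp only [Set.mem_ofPred_eq] at *
    rw [map_mul, Δ.leib, ha, hb]; ring
  one_mem' := by simp [Δ.D_one]
  add_mem' := by
    intro a b ha hb
    simp only [Set.mem_ofPred_eq] at *
    rw [map_add, map_add, ha, hb, add_zero]
  zero_mem' := by simp
  neg_mem' := by
    intro a ha
    simp only [Set.mem_ofPred_eq] at *
    rw [map_neg, map_neg, ha, neg_zero]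

/-- `R = {s : D s ∈ S}` -/
def R : Subring S where
  carrier := {s | ∃ t, Δ.D (algebraMap S F s) = algebraMap S F t}
  mul_mem' := by
    rintro a b ⟨s, hs⟩ ⟨t, ht⟩
    exact ⟨a * t + b * s, by rw [map_mul, Δ.leib, hs, ht]; simp⟩
  one_mem' := ⟨0, by simp [Δ.D_one]⟩
  add_mem' := by
    rintro a b ⟨s, hs⟩ ⟨t, ht⟩
    exact ⟨s + t, by rw [map_add, map_add, hs, ht, map_add]⟩
  zero_mem' := ⟨0, by simp⟩
  neg_mem' := by
    rintro a ⟨s, hs⟩
    exact ⟨-s, by rw [map_neg, map_neg, hs, map_neg]⟩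

omit [UniqueFactorizationMonoid S] [IsNoetherianRing S] [CharP S 2] [IsFractionRing S F] in
theorem mem_S0 {s : S} : s ∈ Δ.S0 ↔ Δ.D (algebraMap S F s) = 0 := Iff.rfl

omit [UniqueFactorizationMonoid S] [IsNoetherianRing S] [CharP S 2] [IsFractionRing S F] in
theorem mem_R {s : S} : s ∈ Δ.R ↔ ∃ t, Δ.D (algebraMap S F s) = algebraMap S F t := Iff.rfl

omit [UniqueFactorizationMonoid S] [IsNoetherianRing S] [CharP S 2] [IsFractionRing S F] in
theorem S0_le_R : Δ.S0 ≤ Δ.R := by
  intro s hs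
  exact ⟨0, by rw [map_zero]; exact hs⟩

omit [IsNoetherianRing S] [CharP S 2] in
/-- denominators of `D s` are squarefree -/
theorem exists_denom (s : S) : ∃ h c : S, h ≠ 0 ∧ Squarefree h ∧
    algebraMap S F h * Δ.D (algebraMap S F s) = algebraMap S F c := by
  obtain ⟨c, b, hrel, hcb⟩ := IsFractionRing.exists_reduced_fraction (A := S) (K := F)
    (Δ.D (algebraMap S F s))
  have hb0 : (b : S) ≠ 0 := nonZeroDivisors.coe_ne_zero b
  have hbF : algebraMap S F b * Δ.D (algebraMap S F s) = algebraMap S F c := by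
    rw [← hcb, mul_comm]
    exact IsLocalization.mk'_spec F c b
  refine ⟨b, c, hb0, ?_, hbF⟩
  rw [squarefree_iff_no_irreducibles hb0]
  intro π hπ hdvd
  have hp : Prime π := hπ.prime
  obtain ⟨b', hb'⟩ := hdvd
  obtain ⟨b1, c1, hb1, h1⟩ := Δ.exC π (π * s) hp (dvd_mul_right _ _)
  obtain ⟨b2, c2, hb2, h2⟩ := Δ.exC π π hp dvd_rfl
  have hinj := IsFractionRing.injective S F
  have e : b1 * b2 * c = π * (b' * (b2 * c1 - s * b1 * c2)) := by
    apply hinj
    have hπ0 : algebraMap S F π ≠ 0 := fun h => hp.ne_zero (hinj (by rw [map_zero]; exact h))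
    apply mul_left_cancel₀ hπ0
    rw [map_mul, Δ.leib] at h1
    rw [hb', map_mul, map_mul] at hbF
    simp only [map_mul, map_sub]
    rw [← h1, ← h2, ← hbF]
    ring
  have hdc : π ∣ c := by
    have : π ∣ b1 * b2 * c := ⟨_, e⟩
    rcases hp.dvd_or_dvd this with h | h
    · rcases hp.dvd_or_dvd h with h | h
      · exact absurd h hb1
      · exact absurd h hb2
    · exact h
  exact hp.not_isUnit (hrel hdc (by rw [hb']; exact ⟨π * b', by ring⟩))

omit [IsNoetherianRing S] [CharP S 2] in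
/-- squarefree common multiples -/
theorem exists_squarefree_mul (h1 h2 : S) (h10 : h1 ≠ 0) (h20 : h2 ≠ 0) (s1 : Squarefree h1)
    (s2 : Squarefree h2) : ∃ h, h ≠ 0 ∧ Squarefree h ∧ h1 ∣ h ∧ h2 ∣ h := by
  obtain ⟨a, b, d, hrel, ha, hb⟩ := exists_reduced_factors h1 h10 h2
  subst ha hb
  have hb0 : b ≠ 0 := right_ne_zero_of_mul h20
  refine ⟨d * a * b, mul_ne_zero h10 hb0, ?_, dvd_mul_right _ _, ⟨a, by ring⟩⟩
  rw [squarefree_iff_no_irreducibles (mul_ne_zero h10 hb0)]
  intro π hπ hdvd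
  have hp := hπ.prime
  rw [← pow_two] at hdvd
  by_cases hπb : π ∣ b
  · have hπa : ¬ π ∣ a := fun h => hp.not_isUnit (hrel h hπb)
    have e : d * a * b = a * (d * b) := by ring
    rw [e] at hdvd
    have := hp.pow_dvd_of_dvd_mul_left 2 hπa hdvd
    rw [pow_two] at this
    exact hp.not_isUnit (s2 π this)
  · have := hp.pow_dvd_of_dvd_mul_right 2 hπb hdvd
    rw [pow_two] at this
    exact hp.not_isUnit (s1 π this)

omit [IsNoetherianRing S] [CharP S 2] in
/-- common denominators -/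
theorem exists_common_denom {n : ℕ} (s : Fin n → S) : ∃ h : S, h ≠ 0 ∧ Squarefree h ∧
    ∀ i, ∃ c, algebraMap S F h * Δ.D (algebraMap S F (s i)) = algebraMap S F c := by
  induction n with
  | zero => exact ⟨1, one_ne_zero, squarefree_one, fun i => i.elim0⟩
  | succ n ih =>
    obtain ⟨h1, h10, hs1, H1⟩ := ih (fun i => s i.castSucc)
    obtain ⟨h2, c2, h20, hs2, H2⟩ := Δ.exists_denom (s (Fin.last n))
    obtain ⟨h, h0, hs, ⟨k1, hk1⟩, ⟨k2, hk2⟩⟩ := exists_squarefree_mul h1 h2 h10 h20 hs1 hs2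
    refine ⟨h, h0, hs, fun i => ?_⟩
    induction i using Fin.lastCases with
    | last => exact ⟨k2 * c2, by rw [hk2, mul_comm h2, map_mul, map_mul, mul_assoc, H2]⟩
    | cast i =>
      obtain ⟨c, hc⟩ := H1 i
      exact ⟨k1 * c, by rw [hk1, mul_comm h1, map_mul, map_mul, mul_assoc, hc]⟩

omit [IsNoetherianRing S] [CharP S 2] in
/-- The key lemma: `J S ∩ S₀ = J`. -/
theorem mem_of_mem_map (J : Ideal Δ.S0) (a : Δ.S0) (ha : (a : S) ∈ J.map Δ.S0.subtype) :
    a ∈ J := by
  have hinj := IsFractionRing.injective S F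
  rw [Ideal.map, Ideal.span, Submodule.mem_span_set'] at ha
  obtain ⟨n, s, j, hsj⟩ := ha
  have hj : ∀ i, ∃ j' : Δ.S0, j' ∈ J ∧ (j' : S) = j i := by
    intro i
    obtain ⟨j', hj', h⟩ := (j i).2
    exact ⟨j', hj', h⟩
  choose j' hj'J hj' using hj
  obtain ⟨h, h0, hsq, hc⟩ := Δ.exists_common_denom s
  obtain ⟨g, y, ⟨u, hgh⟩, hgy⟩ := Δ.exB h h0 hsq
  have hDg := Δ.D_eq_zero_of hgy
  have hg0 : algebraMap S F g ≠ 0 := left_ne_zero_of_mul_eq_one hgy
  -- `g D(s i) = c i`
  have hc' : ∀ i, ∃ c, algebraMap S F g * Δ.D (algebraMap S F (s i)) = algebraMap S F c := by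
    intro i
    obtain ⟨c, hc⟩ := hc i
    refine ⟨↑u⁻¹ * c, ?_⟩
    have e : g = ↑u⁻¹ * h := by
      rw [← hgh, mul_comm g, Units.inv_mul_cancel_left]
    rw [e, map_mul, mul_assoc, hc, map_mul]
  choose c hcc using hc'
  have hcD : ∀ i, Δ.D (algebraMap S F (c i)) = 0 := by
    intro i
    rw [← hcc i, Δ.leib, Δ.sq, hDg]; ring
  have hs' : ∀ i, s i - c i * y ∈ Δ.S0 := by
    intro i
    rw [mem_S0, map_sub, map_sub, map_mul, Δ.leib, hcD, mul_zero, add_zero]
    apply mul_left_cancel₀ hg0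
    rw [mul_sub, hcc i, mul_zero]
    linear_combination (-algebraMap S F (c i)) * hgy
  have hsum : ∑ i, c i * (j i : S) = 0 := by
    apply hinj
    rw [map_sum, map_zero]
    have h1 : Δ.D (algebraMap S F (a : S)) = 0 := a.2
    rw [← hsj, map_sum, map_sum] at h1
    have h2 : ∀ i, Δ.D (algebraMap S F (s i • (j i : S))) =
        algebraMap S F (j i : S) * Δ.D (algebraMap S F (s i)) := by
      intro i
      have h3 : Δ.D (algebraMap S F (j i : S)) = 0 := by
        rw [← hj' i]; exact (j' i).2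
      rw [smul_eq_mul, map_mul, Δ.leib, h3, mul_zero, zero_add]
    rw [Finset.sum_congr rfl (fun i _ => h2 i)] at h1
    have h4 : algebraMap S F g * ∑ i, algebraMap S F (j i : S) * Δ.D (algebraMap S F (s i))
        = 0 := by rw [h1, mul_zero]
    rw [Finset.mul_sum] at h4
    rw [← h4]
    apply Finset.sum_congr rfl
    intro i _
    rw [map_mul, ← hcc i]; ring
  have hfin : a = ∑ i, (⟨s i - c i * y, hs' i⟩ : Δ.S0) * j' i := by
    apply Subtype.ext
    rw [← hsj, AddSubmonoidClass.coe_finsetSum]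
    have : ∀ i, (((⟨s i - c i * y, hs' i⟩ : Δ.S0) * j' i : Δ.S0) : S) =
        s i • (j i : S) - y * (c i * (j i : S)) := by
      intro i
      rw [Subring.coe_mul, hj' i, smul_eq_mul]; ring
    rw [Finset.sum_congr rfl (fun i _ => this i), Finset.sum_sub_distrib, ← Finset.mul_sum,
      hsum, mul_zero, sub_zero]
  rw [hfin]
  exact Ideal.sum_mem _ (fun i _ => Ideal.mul_mem_left _ _ (hj'J i))

omit [CharP S 2] in
theorem isNoetherian_S0 : IsNoetherianRing Δ.S0 := by
  have hinj : Function.Injective (fun J : Ideal Δ.S0 => J.map Δ.S0.subtype) := by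
    intro J J' h'
    have h : J.map Δ.S0.subtype = J'.map Δ.S0.subtype := h'
    apply le_antisymm
    · intro a ha
      apply Δ.mem_of_mem_map J' a
      rw [← h]
      exact Ideal.mem_map_of_mem Δ.S0.subtype ha
    · intro a ha
      apply Δ.mem_of_mem_map J a
      rw [h]
      exact Ideal.mem_map_of_mem Δ.S0.subtype ha
  have hmono : Monotone (fun J : Ideal Δ.S0 => J.map Δ.S0.subtype) :=
    fun J J' h => Ideal.map_mono h
  have hstrict := hmono.strictMono_of_injective hinj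
  rw [isNoetherianRing_iff, isNoetherian_iff']
  have : WellFoundedGT (Ideal S) := isNoetherian_iff'.1 (inferInstance : IsNoetherian S S)
  exact hstrict.wellFoundedGT

omit [UniqueFactorizationMonoid S] [IsNoetherianRing S] [CharP S 2] [IsFractionRing S F] in
theorem exists_theta : ∃ θ : S, Δ.D (algebraMap S F θ) = 1 := by
  obtain ⟨g, y, -, hgy⟩ := Δ.exB 1 one_ne_zero squarefree_one
  refine ⟨g * y, ?_⟩
  rw [map_mul, Δ.leib, Δ.D_eq_zero_of hgy, mul_zero, add_zero, hgy]

omit [CharP S 2] in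
theorem isNoetherian_R : IsNoetherianRing Δ.R := by
  obtain ⟨θ, hθ⟩ := Δ.exists_theta
  have hN := Δ.isNoetherian_S0
  let f : Δ.S0 →+* Δ.R := Subring.inclusion Δ.S0_le_R
  let _ : Algebra Δ.S0 Δ.R := f.toAlgebra
  have hθR : θ ∈ Δ.R := ⟨1, by rw [hθ, map_one]⟩
  have hfin : Module.Finite Δ.S0 Δ.R := by
    refine Module.finite_def.2 (Submodule.fg_def.2 ⟨{1, ⟨θ, hθR⟩}, by simp, ?_⟩)
    rw [eq_top_iff]
    rintro ⟨s, hs⟩ -
    obtain ⟨t, ht⟩ := hs
    have ht0 : t ∈ Δ.S0 := by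
      rw [mem_S0, ← ht, Δ.sq]
    have hs0 : s - t * θ ∈ Δ.S0 := by
      rw [mem_S0, map_sub, map_sub, map_mul, Δ.leib, hθ, Δ.mem_S0.1 ht0, ht]; ring
    have : (⟨s, ⟨t, ht⟩⟩ : Δ.R) = (⟨s - t * θ, hs0⟩ : Δ.S0) • (1 : Δ.R) +
        (⟨t, ht0⟩ : Δ.S0) • (⟨θ, hθR⟩ : Δ.R) := by
      apply Subtype.ext
      show s = (s - t * θ) * 1 + t * θ
      ring
    rw [this]
    refine Submodule.add_mem _ (Submodule.smul_mem _ _ (Submodule.subset_span (by simp)))
      (Submodule.smul_mem _ _ (Submodule.subset_span (by simp)))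
  exact IsNoetherianRing.of_finite Δ.S0 Δ.R

omit [UniqueFactorizationMonoid S] [IsNoetherianRing S] [IsFractionRing S F] in
theorem sq_mem (s : S) : s ^ 2 ∈ Δ.R :=
  ⟨0, by rw [map_pow, map_zero, Δ.D_sq (S := S)]⟩

omit [IsNoetherianRing S] in
/-- the field `F` is the fraction field of `R` -/
theorem isFractionRing_R : IsFractionRing Δ.R F := by
  have hinj : Function.Injective (algebraMap Δ.R F) := by
    intro a b h
    exact Subtype.ext (IsFractionRing.injective S F h)
  have hFS : FaithfulSMul Δ.R F := (faithfulSMul_iff_algebraMap_injective _ _).2 hinj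
  refine IsFractionRing.of_field Δ.R F (fun f => ?_)
  obtain ⟨a, b, hb, rfl⟩ := IsFractionRing.div_surjective (A := S) f
  have hb0 : b ≠ 0 := nonZeroDivisors.ne_zero hb
  obtain ⟨h, c, h0, -, hc⟩ := Δ.exists_denom (a * b)
  have hF : ∀ t : S, t ≠ 0 → algebraMap S F t ≠ 0 := fun t ht h =>
    ht (IsFractionRing.injective S F (by rw [map_zero]; exact h))
  have h1 : h ^ 2 * (a * b) ∈ Δ.R := by
    refine ⟨h * c, ?_⟩
    rw [map_mul, map_pow, Δ.leib, Δ.D_sq (S := S), mul_zero, add_zero, map_mul (algebraMap S F) h c, ← hc]; ring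
  have h2 : (h * b) ^ 2 ∈ Δ.R := Δ.sq_mem _
  refine ⟨⟨_, h1⟩, ⟨_, h2⟩, ?_⟩
  show algebraMap S F a / algebraMap S F b =
    algebraMap S F (h ^ 2 * (a * b)) / algebraMap S F ((h * b) ^ 2)
  have := hF h h0
  have := hF b hb0
  simp only [map_mul, map_pow]
  field_simp

end Data

end Pool.Agent.R830.Semi
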