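import Mathlib

/-! Extension of a derivation to the fraction field. -/

namespace Pool.Agent.R830.Semi

open TrivSqZeroExt

theorem exists_extension (B F : Type) [CommRing B] [IsDomain B] [Field F] [Algebra B F]
    [IsFractionRing B F] (δ : B →+ F)
    (hδ : ∀ a b, δ (a * b) = algebraMap B F a * δ b + algebraMap B F b * δ a) :
    ∃ D : F →+ F, (∀ a b, D (a * b) = a * D b + b * D a) ∧
      ∀ b, D (algebraMap B F b) = δ b := by
  have h1 : δ 1 = 0 := by
    have h := hδ 1 1
    rw [mul_one, (algebraMap B F).map_one, one_mul] at h
    have h2 : δ 1 + 0 = δ 1 + δ 1 := by rw [add_zero]; exact h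
    exact (add_left_cancel h2).symm
  let E : B →+* TrivSqZeroExt F F :=
    { toFun := fun b => inl (algebraMap B F b) + inr (δ b)
      map_one' := by
        ext <;> simp [h1]
      map_mul' := fun a b => by
        ext
        · simp
        · simp [hδ, mul_comm]
      map_zero' := by
        ext <;> simp
      map_add' := fun a b => by
        ext <;> simp }
  have hE1 : ∀ b, fst (E b) = algebraMap B F b := fun b => by
    show fst (inl (algebraMap B F b) + inr (δ b)) = _
    simp
  have hE2 : ∀ b, snd (E b) = δ b := fun b => by
    show snd (inl (algebraMap B F b) + inr (δ b)) = _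
    simp
  have hunit : ∀ b : nonZeroDivisors B, IsUnit (E b) := by
    intro b
    rw [isUnit_iff_isUnit_fst, hE1]
    exact IsLocalization.map_units F b
  let L : F →+* TrivSqZeroExt F F := IsLocalization.lift hunit
  have hL : ∀ b, L (algebraMap B F b) = E b := fun b => IsLocalization.lift_eq hunit b
  have hfst : ∀ f, fst (L f) = f := by
    intro f
    have : (fstHom F F F).toRingHom.comp L = RingHom.id F := by
      apply IsLocalization.ringHom_ext (nonZeroDivisors B)
      ext b
      show fst (L (algebraMap B F b)) = algebraMap B F b
      rw [hL, hE1]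
    exact congrArg (fun g : F →+* F => g f) this
  refine ⟨{ toFun := fun f => snd (L f)
            map_zero' := by simp
            map_add' := fun a b => by simp }, ?_, ?_⟩
  · intro a b
    show snd (L (a * b)) = a * snd (L b) + b * snd (L a)
    rw [map_mul, snd_mul, hfst, hfst]
    simp [mul_comm]
  · intro b
    show snd (L (algebraMap B F b)) = δ b
    rw [hL, hE2]

end Pool.Agent.R830.Semi
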