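import Mathlib

/-! The rings `B = F_2[x,u,y] → S = F_2(u,y)[x] → F = Frac S`. -/

namespace Pool.Agent.R830.Semi

open MvPolynomial

/-- index set of the variables `u_i = (false, i)`, `y_i = (true, i)` -/
abbrev V := Bool × ℕ
/-- `F_2[u,y]` -/
abbrev P := MvPolynomial V (ZMod 2)
/-- `F_2(u,y)` -/
abbrev K := FractionRing P

attribute [local instance] MvPolynomial.algebraMvPolynomial

variable (d : ℕ)

/-- `S = F_2(u,y)[x_1,…,x_d]` -/
abbrev SS := MvPolynomial (Fin d) K
/-- `B = F_2[x,u,y]` -/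
abbrev BB := MvPolynomial (Fin d ⊕ V) (ZMod 2)
/-- `F = Frac S` -/
abbrev FF := FractionRing (SS d)

/-- `F_2[u,y][x] ≃ F_2[x,u,y]` -/
noncomputable def hh : MvPolynomial (Fin d) P ≃+* BB d :=
  (sumAlgEquiv (ZMod 2) (Fin d) V).symm.toRingEquiv

noncomputable instance algBS : Algebra (BB d) (SS d) :=
  ((algebraMap (MvPolynomial (Fin d) P) (SS d)).comp (hh d).symm.toRingHom).toAlgebra

/-- the multiplicative set `F_2[u,y] ∖ 0` -/
noncomputable def W : Submonoid (BB d) :=
  ((nonZeroDivisors P).map (C : P →+* MvPolynomial (Fin d) P)).map (hh d).toMonoidHom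

instance locBS : IsLocalization (W d) (SS d) :=
  IsLocalization.isLocalization_of_base_ringEquiv
    ((nonZeroDivisors P).map (C : P →+* MvPolynomial (Fin d) P)) (SS d) (hh d)

theorem W_le : W d ≤ nonZeroDivisors (BB d) := by
  rintro _ ⟨_, ⟨p, hp, rfl⟩, rfl⟩
  rw [mem_nonZeroDivisors_iff_ne_zero]
  have hp0 : p ≠ 0 := nonZeroDivisors.ne_zero hp
  show (hh d) (C p) ≠ 0
  rw [Ne, map_eq_zero_iff _ (hh d).injective, map_eq_zero_iff _ (C_injective _ _)]
  exact hp0

instance towerBSF : IsScalarTower (BB d) (SS d) (FF d) := inferInstance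

theorem injBS : Function.Injective (algebraMap (BB d) (SS d)) :=
  IsLocalization.injective _ (W_le d)

theorem injSF : Function.Injective (algebraMap (SS d) (FF d)) :=
  IsFractionRing.injective _ _

instance fracBF : IsFractionRing (BB d) (FF d) := by
  have : FaithfulSMul (BB d) (FF d) := by
    rw [faithfulSMul_iff_algebraMap_injective, IsScalarTower.algebraMap_eq (BB d) (SS d) (FF d)]
    exact (injSF d).comp (injBS d)
  refine IsFractionRing.of_field (BB d) (FF d) (fun f => ?_)
  obtain ⟨a, b, hb, rfl⟩ := IsFractionRing.div_surjective (A := SS d) f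
  have hb0 : b ≠ 0 := nonZeroDivisors.ne_zero hb
  obtain ⟨⟨a', w⟩, ha⟩ := IsLocalization.surj (W d) a
  obtain ⟨⟨b', w'⟩, hb'⟩ := IsLocalization.surj (W d) b
  simp only at ha hb'
  refine ⟨a' * w', b' * w, ?_⟩
  rw [IsScalarTower.algebraMap_apply (BB d) (SS d) (FF d),
    IsScalarTower.algebraMap_apply (BB d) (SS d) (FF d), (algebraMap (BB d) (SS d)).map_mul,
    (algebraMap (BB d) (SS d)).map_mul, ← ha, ← hb']
  have hw : algebraMap (SS d) (FF d) (algebraMap (BB d) (SS d) w) ≠ 0 := by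
    intro h
    have h1 := injSF d (h.trans (map_zero _).symm)
    have h2 := injBS d (h1.trans (map_zero _).symm)
    exact nonZeroDivisors.ne_zero (W_le d w.2) h2
  have hw' : algebraMap (SS d) (FF d) (algebraMap (BB d) (SS d) w') ≠ 0 := by
    intro h
    have h1 := injSF d (h.trans (map_zero _).symm)
    have h2 := injBS d (h1.trans (map_zero _).symm)
    exact nonZeroDivisors.ne_zero (W_le d w'.2) h2
  have hbF : algebraMap (SS d) (FF d) b ≠ 0 := by
    intro h
    exact hb0 (injSF d (h.trans (map_zero _).symm))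
  simp only [map_mul]
  field_simp

/-- the variables -/
noncomputable def xv (j : Fin d) : BB d := X (Sum.inl j)
/-- `u_i` -/
noncomputable def uv (i : ℕ) : BB d := X (Sum.inr (false, i))
/-- `y_i` -/
noncomputable def yv (i : ℕ) : BB d := X (Sum.inr (true, i))

theorem isUnit_uv (i : ℕ) : IsUnit (algebraMap (BB d) (SS d) (uv d i)) := by
  have : uv d i ∈ W d := by
    refine ⟨C (X (false, i)), ⟨X (false, i), ?_, rfl⟩, ?_⟩
    · rw [SetLike.mem_coe, mem_nonZeroDivisors_iff_ne_zero]
      exact X_ne_zero _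
    · show (sumAlgEquiv (ZMod 2) (Fin d) V).symm (C (X (false, i))) = X (Sum.inr (false, i))
      rw [AlgEquiv.symm_apply_eq]
      simp
  exact IsLocalization.map_units (SS d) (⟨_, this⟩ : W d)

/-- index sets -/
def TT (n : ℕ) : Set (Fin d ⊕ V) := {v | ∀ b i, v = Sum.inr (b, i) → i < n}

/-- polynomials in `x` and `u_i, y_i`, `i < n` -/
noncomputable def Bn (n : ℕ) : Subalgebra (ZMod 2) (BB d) := supported (ZMod 2) (TT d n)

theorem Bn_mono {n m : ℕ} (h : n ≤ m) : Bn d n ≤ Bn d m :=
  supported_mono (fun _ hv b i hbi => (hv b i hbi).trans_le h)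

theorem uv_mem {i n : ℕ} (h : i < n) : uv d i ∈ Bn d n := by
  unfold Bn uv
  rw [X_mem_supported]
  intro b j hj
  simp only [Sum.inr.injEq, Prod.mk.injEq] at hj
  omega

theorem exists_mem_Bn (b : BB d) : ∃ n, b ∈ Bn d n := by
  induction b using MvPolynomial.induction_on with
  | C a => exact ⟨0, (Bn d 0).algebraMap_mem a⟩
  | add p q hp hq =>
    obtain ⟨n, hn⟩ := hp
    obtain ⟨m, hm⟩ := hq
    exact ⟨max n m, Subalgebra.add_mem _ (Bn_mono d (le_max_left _ _) hn)
      (Bn_mono d (le_max_right _ _) hm)⟩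
  | mul_X p v hp =>
    obtain ⟨n, hn⟩ := hp
    rcases v with j | ⟨b, i⟩
    · refine ⟨n, Subalgebra.mul_mem _ hn ?_⟩
      unfold Bn
      rw [X_mem_supported]
      intro b i hbi
      cases hbi
    · refine ⟨max n (i + 1), Subalgebra.mul_mem _ (Bn_mono d (le_max_left _ _) hn) ?_⟩
      unfold Bn
      rw [X_mem_supported]
      intro b' i' hbi
      simp only [Sum.inr.injEq, Prod.mk.injEq] at hbi
      omega

theorem Bn_of_dvd {n : ℕ} {a b : BB d} (ha : a ∈ Bn d n) (ha0 : a ≠ 0) (hb : b ∣ a) :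
    b ∈ Bn d n := by
  classical
  obtain ⟨c, rfl⟩ := hb
  have hb0 : b ≠ 0 := left_ne_zero_of_mul ha0
  have hc0 : c ≠ 0 := right_ne_zero_of_mul ha0
  unfold Bn at *
  rw [mem_supported] at *
  intro v hv
  apply ha
  rw [SetLike.mem_coe, mem_vars_iff_degreeOf_ne_zero] at *
  rw [degreeOf_mul_eq hb0 hc0]
  omega

theorem Bn_induction {n : ℕ} (M : BB d → Prop) (hC : ∀ c : ZMod 2, M (C c))
    (hx : ∀ j, M (xv d j)) (hu : ∀ i < n, M (uv d i)) (hy : ∀ i < n, M (yv d i))
    (hadd : ∀ a b, M a → M b → M (a + b)) (hmul : ∀ a b, M a → M b → M (a * b))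
    (b : BB d) (hb : b ∈ Bn d n) : M b := by
  unfold Bn supported at hb
  induction hb using Algebra.adjoin_induction with
  | mem v hv =>
    obtain ⟨w, hw, rfl⟩ := hv
    rcases w with j | ⟨b, i⟩
    · exact hx j
    · have := hw b i rfl
      cases b
      · exact hu i this
      · exact hy i this
  | algebraMap r => exact hC r
  | add a b _ _ ha hb => exact hadd a b ha hb
  | mul a b _ _ ha hb => exact hmul a b ha hb

end Pool.Agent.R830.Semi
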