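import Mathlib
import Pool.Agent.R830.Semi.Tower
import Pool.Agent.R830.Semi.Ext

/-! The recursive construction of the derivation. -/

namespace Pool.Agent.R830.Semi

open MvPolynomial

variable (d : ℕ)

noncomputable instance modBF : Module (BB d) (FF d) := Algebra.toModule

noncomputable instance algZF : Algebra (ZMod 2) (FF d) := inferInstance

noncomputable instance modZF : Module (ZMod 2) (FF d) := Algebra.toModule

instance towerZBF : IsScalarTower (ZMod 2) (BB d) (FF d) :=
  IsScalarTower.of_algebraMap_eq' (Subsingleton.elim _ _)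

/-- `B → F` -/
noncomputable abbrev ι : BB d →+* FF d := algebraMap (BB d) (FF d)

theorem ι_apply (b : BB d) : ι d b = algebraMap (SS d) (FF d) (algebraMap (BB d) (SS d) b) :=
  IsScalarTower.algebraMap_apply _ _ _ _

theorem ι_ne {b : BB d} (hb : b ≠ 0) : ι d b ≠ 0 := by
  intro h
  exact hb (IsFractionRing.injective (BB d) (FF d) (h.trans (map_zero _).symm))

theorem uv_ne (i : ℕ) : uv d i ≠ 0 := X_ne_zero _

theorem countable_BB : Countable (BB d) := by
  rw [← Cardinal.mk_le_aleph0_iff]
  refine MvPolynomial.cardinalMk_le_max.trans ?_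
  simp

/-- The enumeration of the polynomials which are squarefree in `S`. -/
theorem exists_enum : ∃ g : ℕ → BB d, (∀ n, g n ∈ Bn d n ∧ g n ≠ 0 ∧
      Squarefree (algebraMap (BB d) (SS d) (g n))) ∧
    ∀ b : BB d, b ≠ 0 → Squarefree (algebraMap (BB d) (SS d) b) → ∃ n, g n = b := by
  classical
  have := countable_BB d
  obtain ⟨e, he⟩ := exists_surjective_nat (BB d)
  refine ⟨fun n => if e n.unpair.1 ∈ Bn d n ∧ e n.unpair.1 ≠ 0 ∧
    Squarefree (algebraMap (BB d) (SS d) (e n.unpair.1)) then e n.unpair.1 else 1, ?_, ?_⟩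
  · intro n
    by_cases h : e n.unpair.1 ∈ Bn d n ∧ e n.unpair.1 ≠ 0 ∧
      Squarefree (algebraMap (BB d) (SS d) (e n.unpair.1))
    · simp only [if_pos h]; exact h
    · simp only [if_neg h]
      refine ⟨Subalgebra.one_mem _, one_ne_zero, ?_⟩
      rw [map_one]; exact squarefree_one
  · intro b hb hsq
    obtain ⟨m, hm⟩ := he b
    obtain ⟨N, hN⟩ := exists_mem_Bn d b
    refine ⟨Nat.pair m N, ?_⟩
    have h1 : (Nat.pair m N).unpair.1 = m := by rw [Nat.unpair_pair]
    simp only [h1, hm]
    rw [if_pos]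
    exact ⟨Bn_mono d (Nat.right_le_pair m N) hN, hb, hsq⟩

/-- the derivation `B → F` with prescribed values on `u, y`, zero on `x` -/
noncomputable def δ (w : V → FF d) : Derivation (ZMod 2) (BB d) (FF d) :=
  mkDerivation (ZMod 2) (Sum.elim (fun _ => 0) w)

theorem δ_x (w : V → FF d) (j : Fin d) : δ d w (xv d j) = 0 := by
  unfold δ xv
  rw [mkDerivation_X]; rfl

theorem δ_u (w : V → FF d) (i : ℕ) : δ d w (uv d i) = w (false, i) := by
  unfold δ uv
  rw [mkDerivation_X]; rfl

theorem δ_y (w : V → FF d) (i : ℕ) : δ d w (yv d i) = w (true, i) := by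
  unfold δ yv
  rw [mkDerivation_X]; rfl

theorem δ_C (w : V → FF d) (c : ZMod 2) : δ d w (C c) = 0 :=
  (δ d w).map_algebraMap c

theorem δ_mul (w : V → FF d) (a b : BB d) :
    δ d w (a * b) = ι d a * δ d w b + ι d b * δ d w a := by
  rw [Derivation.leibniz, Algebra.smul_def, Algebra.smul_def]

theorem δ_congr {n : ℕ} {w w' : V → FF d} (h : ∀ b i, i < n → w (b, i) = w' (b, i))
    (b : BB d) (hb : b ∈ Bn d n) : δ d w b = δ d w' b := by
  refine Bn_induction d (fun b => δ d w b = δ d w' b) ?_ ?_ ?_ ?_ ?_ ?_ b hb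
  · intro c; simp only [δ_C]
  · intro j; simp only [δ_x]
  · intro i hi; simp only [δ_u, h _ i hi]
  · intro i hi; simp only [δ_y, h _ i hi]
  · intro a b ha hb; simp only [map_add, ha, hb]
  · intro a b ha hb; simp only [δ_mul, ha, hb]

/-- The approximations to the values on the `u_i`. -/
noncomputable def wseq (g : ℕ → BB d) : ℕ → V → FF d
  | 0 => fun v => if v.1 then 1 / (ι d (uv d v.2) * ι d (g v.2)) else 0
  | n + 1 => Function.update (wseq g n) (false, n)
      (ι d (uv d n) / ι d (g n) * δ d (wseq g n) (g n))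

theorem wseq_true (g : ℕ → BB d) (n i : ℕ) :
    wseq d g n (true, i) = 1 / (ι d (uv d i) * ι d (g i)) := by
  induction n with
  | zero => simp [wseq]
  | succ n ih => rw [wseq, Function.update_of_ne (by simp), ih]

theorem wseq_false (g : ℕ → BB d) (n i : ℕ) (h : i < n) :
    wseq d g n (false, i) = wseq d g (i + 1) (false, i) := by
  induction n with
  | zero => omega
  | succ n ih =>
    by_cases hin : i = n
    · rw [hin]
    · rw [wseq, Function.update_of_ne (by simpa using hin), ih (by omega)]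

theorem exists_derivation (g : ℕ → BB d) (hg : ∀ n, g n ∈ Bn d n) :
    ∃ D : FF d →+ FF d, (∀ a b, D (a * b) = a * D b + b * D a) ∧
      (∀ j, D (ι d (xv d j)) = 0) ∧
      (∀ n, D (ι d (uv d n)) = ι d (uv d n) / ι d (g n) * D (ι d (g n))) ∧
      (∀ n, D (ι d (yv d n)) = 1 / (ι d (uv d n) * ι d (g n))) := by
  let w : V → FF d := fun v => wseq d g (v.2 + 1) v
  obtain ⟨D, hD, hDδ⟩ := exists_extension (BB d) (FF d) (δ d w : BB d →+ FF d) (δ_mul d w)
  have hDδ' : ∀ b, D (ι d b) = δ d w b := hDδ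
  refine ⟨D, hD, ?_, ?_, ?_⟩
  · intro j; rw [hDδ', δ_x]
  · intro n
    rw [hDδ', hDδ', δ_u]
    show wseq d g (n + 1) (false, n) = _
    rw [wseq, Function.update_self]
    congr 1
    apply δ_congr d (n := n) _ _ (hg n)
    intro b i hi
    show wseq d g n (b, i) = wseq d g (i + 1) (b, i)
    cases b
    · exact wseq_false d g n i hi
    · rw [wseq_true, wseq_true]
  · intro n
    rw [hDδ', δ_y]
    exact wseq_true d g (n + 1) n

end Pool.Agent.R830.Semi
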