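import Mathlib
import Pool.Agent.R830.Semi.Defs
import Pool.Agent.R830.Semi.Abstract

/-! Dimension, seminormality and associated primes. -/

namespace Pool.Agent.R830.Semi

variable {S F : Type} [CommRing S] [IsDomain S] [UniqueFactorizationMonoid S]
  [IsNoetherianRing S] [CharP S 2] [Field F] [Algebra S F] [IsFractionRing S F]

variable (Δ : Data S F)

namespace Data

omit [UniqueFactorizationMonoid S] [IsNoetherianRing S] [IsDomain S] in
theorem add_sq' (a b : S) : (a + b) ^ 2 = a ^ 2 + b ^ 2 := by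
  have : Fact (Nat.Prime 2) := ⟨Nat.prime_two⟩
  exact add_pow_char (p := 2) a b

/-- `s ↦ s^2`, as a ring homomorphism `S → R` -/
def sqHom : S →+* Δ.R where
  toFun s := ⟨s ^ 2, Δ.sq_mem s⟩
  map_one' := Subtype.ext (one_pow 2)
  map_mul' a b := Subtype.ext (mul_pow a b 2)
  map_zero' := Subtype.ext (zero_pow two_ne_zero)
  map_add' a b := Subtype.ext (add_sq' a b)

omit [UniqueFactorizationMonoid S] [IsNoetherianRing S] [IsFractionRing S F] in
theorem sqHom_coe (r : Δ.R) : Δ.sqHom (r : S) = r ^ 2 := Subtype.ext rfl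

/-- The spectra of `S` and `R` agree. -/
def specIso : PrimeSpectrum S ≃o PrimeSpectrum Δ.R where
  toFun := PrimeSpectrum.comap Δ.R.subtype
  invFun := PrimeSpectrum.comap Δ.sqHom
  left_inv P := by
    apply PrimeSpectrum.ext
    ext s
    show s ^ 2 ∈ P.asIdeal ↔ s ∈ P.asIdeal
    exact P.isPrime.pow_mem_iff_mem 2 two_pos
  right_inv P := by
    apply PrimeSpectrum.ext
    ext r
    show Δ.sqHom (r : S) ∈ P.asIdeal ↔ r ∈ P.asIdeal
    rw [sqHom_coe]
    exact P.isPrime.pow_mem_iff_mem 2 two_pos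
  map_rel_iff' := by
    intro P Q
    constructor
    · intro h s hs
      have h1 : Δ.sqHom s ∈ (PrimeSpectrum.comap Δ.R.subtype P).asIdeal := by
        show s ^ 2 ∈ P.asIdeal
        exact P.asIdeal.pow_mem_of_mem hs 2 two_pos
      have h2 : s ^ 2 ∈ Q.asIdeal := h h1
      exact Q.isPrime.mem_of_pow_mem 2 h2
    · intro h r hr
      exact h hr

omit [UniqueFactorizationMonoid S] [IsNoetherianRing S] [IsFractionRing S F] in
theorem ringKrullDim_R : ringKrullDim Δ.R = ringKrullDim S :=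
  (Order.krullDim_eq_of_orderIso Δ.specIso).symm

omit [IsNoetherianRing S] in
theorem mem_R_of_sq_of_cube (x : F) (r2 r3 : Δ.R) (h2 : x ^ 2 = algebraMap Δ.R F r2)
    (h3 : x ^ 3 = algebraMap Δ.R F r3) : ∃ r : Δ.R, algebraMap Δ.R F r = x := by
  have hinj := IsFractionRing.injective S F
  have hint : IsIntegral S x := by
    apply IsIntegral.of_pow two_pos
    rw [h2]
    exact isIntegral_algebraMap (R := S) (A := F) (x := (r2 : S))
  obtain ⟨s, rfl⟩ := IsIntegrallyClosed.isIntegral_iff.1 hint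
  have e3 : s ^ 3 = (r3 : S) := by
    apply hinj
    rw [map_pow]; exact h3
  obtain ⟨t, ht⟩ := r3.2
  have hs : algebraMap S F s ^ 2 * Δ.D (algebraMap S F s) = algebraMap S F t := by
    rw [← ht, ← e3]
    have : s ^ 3 = s ^ 2 * s := by ring
    rw [this, map_mul, Δ.leib, map_pow, Δ.D_sq (S := S), mul_zero, add_zero]
  obtain ⟨c, b, hrel, hcb⟩ := IsFractionRing.exists_reduced_fraction (A := S) (K := F)
    (Δ.D (algebraMap S F s))
  have hb0 : (b : S) ≠ 0 := nonZeroDivisors.coe_ne_zero b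
  have hbF : algebraMap S F b * Δ.D (algebraMap S F s) = algebraMap S F c := by
    rw [← hcb, mul_comm]
    exact IsLocalization.mk'_spec F c b
  have hunit : IsUnit (b : S) := by
    by_contra hnu
    obtain ⟨π, hπ, hπb⟩ := WfDvdMonoid.exists_irreducible_factor hnu hb0
    have hp := hπ.prime
    have hπc : ¬ π ∣ c := fun h => hp.not_isUnit (hrel h hπb)
    have e : s ^ 2 * c = b * t := by
      apply hinj
      rw [map_mul, map_mul, map_pow, ← hbF, ← hs]; ring
    have hπs : π ∣ s := by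
      have h1 : π ∣ s ^ 2 * c := by rw [e]; exact hπb.mul_right _
      rcases hp.dvd_or_dvd h1 with h | h
      · exact hp.dvd_of_dvd_pow h
      · exact absurd h hπc
    obtain ⟨b1, c1, hb1, h1⟩ := Δ.exC π s hp hπs
    have e2 : b1 * c = b * c1 := by
      apply hinj
      rw [map_mul, map_mul, ← hbF, ← h1]; ring
    have h4 : π ∣ b1 * c := by rw [e2]; exact hπb.mul_right _
    rcases hp.dvd_or_dvd h4 with h | h
    · exact hb1 h
    · exact hπc h
  obtain ⟨u, hu⟩ := hunit
  have hsR : s ∈ Δ.R := by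
    refine ⟨↑u⁻¹ * c, ?_⟩
    rw [map_mul, ← hbF, ← hu, ← mul_assoc, ← map_mul, Units.inv_mul, map_one, one_mul]
  exact ⟨⟨s, hsR⟩, rfl⟩

omit [IsNoetherianRing S] in
theorem seminormal_R : IsSeminormal Δ.R := by
  have := Δ.isFractionRing_R
  let e : FractionRing Δ.R ≃ₐ[Δ.R] F := FractionRing.algEquiv Δ.R F
  rintro x ⟨r2, h2⟩ ⟨r3, h3⟩
  obtain ⟨r, hr⟩ := Δ.mem_R_of_sq_of_cube (e x) r2 r3
    (by rw [← map_pow, ← h2, e.commutes]) (by rw [← map_pow, ← h3, e.commutes])
  refine ⟨r, ?_⟩
  apply e.injective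
  rw [e.commutes, hr]

omit [IsNoetherianRing S] in
theorem assoc_R (p : Ideal Δ.R) (hp : p.IsPrime) (hh : p.height = 1) : IsAssocNormal Δ.R p := by
  refine ⟨hp, ?_⟩
  have hinj := IsFractionRing.injective S F
  have hFr := Δ.isFractionRing_R
  let e : FractionRing Δ.R ≃ₐ[Δ.R] F := FractionRing.algEquiv Δ.R F
  -- a prime element
  have hP : (p.comap Δ.sqHom).IsPrime := hp.comap _
  have hne : p.comap Δ.sqHom ≠ ⊥ := by
    obtain ⟨r, hr, hr0⟩ := Submodule.exists_mem_ne_zero_of_ne_bot
      (Ideal.ne_bot_of_height_eq_one hh)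
    intro h
    have h1 : (r : S) ∈ p.comap Δ.sqHom := by
      show Δ.sqHom (r : S) ∈ p
      rw [sqHom_coe]
      exact p.pow_mem_of_mem hr 2 two_pos
    rw [h, Ideal.mem_bot] at h1
    exact hr0 (Subtype.ext h1)
  obtain ⟨π, hπP, hπ⟩ := hP.exists_mem_prime_of_ne_bot hne
  -- `p = πS ∩ R`
  let q : Ideal Δ.R := (Ideal.span {π}).comap Δ.R.subtype
  have hmemq : ∀ r : Δ.R, r ∈ q ↔ π ∣ (r : S) := fun r => Ideal.mem_span_singleton
  have hπI : (Ideal.span {π}).IsPrime := (Ideal.span_singleton_prime hπ.ne_zero).2 hπ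
  have hq : q.IsPrime := hπI.comap _
  have hqp : q ≤ p := by
    intro r hr
    obtain ⟨s, hs⟩ := (hmemq r).1 hr
    have h1 : Δ.sqHom (r : S) = Δ.sqHom π * Δ.sqHom s := by rw [hs, map_mul]
    have h2 : r ^ 2 ∈ p := by
      rw [← sqHom_coe, h1]
      exact Ideal.mul_mem_right _ _ hπP
    exact hp.mem_of_pow_mem 2 h2
  have hqne : q ≠ ⊥ := by
    intro h
    have h1 : Δ.sqHom π ∈ q := (hmemq _).2 ⟨π, pow_two π⟩
    rw [h, Ideal.mem_bot] at h1
    have h2 : π ^ 2 = 0 := congrArg Subtype.val h1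
    exact hπ.ne_zero (pow_eq_zero_iff two_ne_zero |>.1 h2)
  have hpq : p = q := by
    by_contra hne'
    have hlt : q < p := lt_of_le_of_ne hqp (fun h => hne' h.symm)
    have h1 := Ideal.height_add_one_le_of_lt_of_isPrime hlt
    rw [hh] at h1
    have h2 : q.height = 0 := by
      have h3 : q.height + 1 ≤ 0 + 1 := by simpa using h1
      exact nonpos_iff_eq_zero.1 ((ENat.add_le_add_iff_right ENat.one_ne_top).1 h3)
    exact hqne (Ideal.height_eq_zero_iff_eq_bot.1 h2)
  obtain ⟨g, y, hgπ, hgy⟩ := Δ.exB π hπ.ne_zero hπ.irreducible.squarefree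
  refine ⟨e.symm (algebraMap S F y), ?_, fun r => ?_⟩
  · apply IsIntegral.of_pow two_pos
    have : e.symm (algebraMap S F y) ^ 2 =
        algebraMap Δ.R (FractionRing Δ.R) (Δ.sqHom y) := by
      apply e.injective
      rw [map_pow, e.apply_symm_apply, e.commutes]
      exact (map_pow (algebraMap S F) y 2).symm
    rw [this]
    exact isIntegral_algebraMap
  · rw [hpq, hmemq]
    have h1 : algebraMap Δ.R (FractionRing Δ.R) r * e.symm (algebraMap S F y) ∈
        (algebraMap Δ.R (FractionRing Δ.R)).range ↔ (r : S) * y ∈ Δ.R := by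
      constructor
      · rintro ⟨t, ht⟩
        have h2 := congrArg e ht
        rw [map_mul, e.commutes, e.commutes, e.apply_symm_apply] at h2
        have h3 : (t : S) = (r : S) * y := by
          apply hinj
          rw [map_mul]; exact h2
        rw [← h3]; exact t.2
      · intro h
        refine ⟨⟨_, h⟩, ?_⟩
        apply e.injective
        rw [map_mul, e.commutes, e.commutes, e.apply_symm_apply]
        exact map_mul (algebraMap S F) (r : S) y
    rw [h1]
    obtain ⟨t, ht⟩ := r.2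
    have hg0 : algebraMap S F g ≠ 0 := left_ne_zero_of_mul_eq_one hgy
    have hg0' : g ≠ 0 := fun h => hg0 (by rw [h, map_zero])
    have hD : Δ.D (algebraMap S F ((r : S) * y)) =
        algebraMap S F (r : S) * Δ.D (algebraMap S F y) + algebraMap S F (y * t) := by
      rw [map_mul, Δ.leib, ht, map_mul]
    have hgr : g ∣ (r : S) ↔ (r : S) * y ∈ Δ.R := by
      constructor
      · rintro ⟨c, hc⟩
        refine ⟨c + y * t, ?_⟩
        rw [hD, hc, map_add, map_mul]
        linear_combination (algebraMap S F c) * hgy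
      · rintro ⟨c, hc⟩
        refine ⟨c - y * t, ?_⟩
        apply hinj
        rw [hD] at hc
        rw [map_mul, map_sub, ← hc]
        linear_combination (-algebraMap S F (r : S)) * hgy
    rw [← hgr]
    exact hgπ.dvd_iff_dvd_left.symm

/-- The conclusion for the abstract data. -/
theorem conclusion : IsNoetherianRing Δ.R ∧ ringKrullDim Δ.R = ringKrullDim S ∧
    IsSeminormal Δ.R ∧ ∀ p : Ideal Δ.R, p.IsPrime → p.height = 1 → IsAssocNormal Δ.R p :=
  ⟨Δ.isNoetherian_R, Δ.ringKrullDim_R, Δ.seminormal_R, Δ.assoc_R⟩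

end Data

end Pool.Agent.R830.Semi
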