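import Mathlib
import Pool.Agent.R830.Semi.Defs
import Pool.Agent.R830.Semi.Main
import Pool.Agent.R830.Semi.Constr

/-! The derivation satisfies all requirements. -/

namespace Pool.Agent.R830.Semi

open MvPolynomial

variable (d : ℕ)

section

variable (g : ℕ → BB d) (hg : ∀ n, g n ∈ Bn d n) (hg0 : ∀ n, g n ≠ 0)
  (hgs : ∀ n, Squarefree (algebraMap (BB d) (SS d) (g n)))
  (hge : ∀ b : BB d, b ≠ 0 → Squarefree (algebraMap (BB d) (SS d) b) → ∃ n, g n = b)
  (D : FF d →+ FF d) (hD : ∀ a b, D (a * b) = a * D b + b * D a)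
  (hx : ∀ j, D (ι d (xv d j)) = 0)
  (hu : ∀ n, D (ι d (uv d n)) = ι d (uv d n) / ι d (g n) * D (ι d (g n)))
  (hy : ∀ n, D (ι d (yv d n)) = 1 / (ι d (uv d n) * ι d (g n)))

include hD

theorem D_one' : D 1 = 0 := by
  have h := hD 1 1
  rw [mul_one, one_mul] at h
  have h2 : D 1 + 0 = D 1 + D 1 := by rw [add_zero]; exact h
  exact (add_left_cancel h2).symm

theorem D_inv {a : FF d} (ha : a ≠ 0) : D (1 / a) = - (D a / a ^ 2) := by
  have h := hD a (1 / a)
  rw [mul_one_div_cancel ha, D_one' d D hD] at h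
  have h2 : a * D (1 / a) = - (1 / a * D a) := (eq_neg_of_add_eq_zero_left h.symm)
  apply mul_left_cancel₀ ha
  rw [h2]
  field_simp

theorem D_C (c : ZMod 2) : D (ι d (C c)) = 0 := by
  have h1 : ι d (C c) = 0 ∨ ι d (C c) = 1 := by
    fin_cases c
    · left
      show ι d (C 0) = 0
      rw [C_0, map_zero]
    · right
      show ι d (C 1) = 1
      rw [C_1, map_one]
  rcases h1 with h | h
  · rw [h, map_zero]
  · rw [h, D_one' d D hD]

omit hD in
theorem two_eq_zero' : (2 : FF d) = 0 := Data.two_eq_zero (SS d) (FF d)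

include hg hg0 hx hu hy

/-- `D² = 0` on `B` -/
theorem DD_B (n : ℕ) : ∀ b ∈ Bn d n, D (D (ι d b)) = 0 := by
  have h2 := two_eq_zero' d
  induction n using Nat.strong_induction_on with
  | _ n ih =>
    intro b hb
    refine Bn_induction d (fun b => D (D (ι d b)) = 0) ?_ ?_ ?_ ?_ ?_ ?_ b hb
    · intro c; simp only [D_C d D hD, map_zero]
    · intro j; simp only [hx, map_zero]
    · intro i hi
      have hgi := ι_ne d (hg0 i)
      have e : D (ι d (uv d i)) =
          (ι d (uv d i) * ι d (g i)) * (D (ι d (g i)) * (1 / ι d (g i) ^ 2)) := by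
        rw [hu]; field_simp
      have e0 : D (ι d (uv d i) * ι d (g i)) = 0 := by
        rw [hD, hu]
        have : ι d (uv d i) * D (ι d (g i)) +
            ι d (g i) * (ι d (uv d i) / ι d (g i) * D (ι d (g i))) =
            2 * (ι d (uv d i) * D (ι d (g i))) := by
          field_simp; ring
        rw [this, h2, zero_mul]
      have e1 : D (1 / ι d (g i) ^ 2) = 0 := by
        rw [D_inv d D hD (pow_ne_zero 2 hgi), pow_two, hD]
        have : ι d (g i) * D (ι d (g i)) + ι d (g i) * D (ι d (g i)) =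
          2 * (ι d (g i) * D (ι d (g i))) := by ring
        rw [this, h2]; simp
      show D (D (ι d (uv d i))) = 0
      rw [e, hD, e0, hD, e1, ih i hi (g i) (hg i)]; ring
    · intro i hi
      have hgi := ι_ne d (hg0 i)
      have hui := ι_ne d (uv_ne d i)
      have e0 : D (ι d (uv d i) * ι d (g i)) = 0 := by
        rw [hD, hu]
        have : ι d (uv d i) * D (ι d (g i)) +
            ι d (g i) * (ι d (uv d i) / ι d (g i) * D (ι d (g i))) =
            2 * (ι d (uv d i) * D (ι d (g i))) := by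
          field_simp; ring
        rw [this, h2, zero_mul]
      show D (D (ι d (yv d i))) = 0
      rw [hy, D_inv d D hD (mul_ne_zero hui hgi), e0]; simp
    · intro a b ha hb
      rw [map_add, map_add, map_add, ha, hb, add_zero]
    · intro a b ha hb
      rw [map_mul, hD, map_add, hD, hD, ha, hb]
      have : ι d a * 0 + D (ι d b) * D (ι d a) + (ι d b * 0 + D (ι d a) * D (ι d b)) =
          2 * (D (ι d b) * D (ι d a)) := by ring
      rw [this, h2, zero_mul]

theorem DD (f : FF d) : D (D f) = 0 := by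
  have h2 := two_eq_zero' d
  have hB : ∀ b, D (D (ι d b)) = 0 := by
    intro b
    obtain ⟨n, hn⟩ := exists_mem_Bn d b
    exact DD_B d g hg hg0 D hD hx hu hy n b hn
  obtain ⟨a, b, hb, rfl⟩ := IsFractionRing.div_surjective (A := BB d) f
  have hb0 : ι d b ≠ 0 := ι_ne d (nonZeroDivisors.ne_zero hb)
  have hDD_mul : ∀ s t : FF d, D (D s) = 0 → D (D t) = 0 → D (D (s * t)) = 0 := by
    intro s t hs ht
    rw [hD, map_add, hD, hD, hs, ht]
    have : s * 0 + D t * D s + (t * 0 + D s * D t) = 2 * (D t * D s) := by ring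
    rw [this, h2, zero_mul]
  have hinv : D (D (1 / ι d b)) = 0 := by
    rw [D_inv d D hD hb0, map_neg, neg_eq_zero]
    have e1 : D (1 / ι d b ^ 2) = 0 := by
      rw [D_inv d D hD (pow_ne_zero 2 hb0), pow_two, hD]
      have : ι d b * D (ι d b) + ι d b * D (ι d b) = 2 * (ι d b * D (ι d b)) := by ring
      rw [this, h2]; simp
    have e2 : D (ι d b) / ι d b ^ 2 = D (ι d b) * (1 / ι d b ^ 2) := by ring
    rw [e2, hD, e1, hB]; ring
  have e : ι d a / ι d b = ι d a * (1 / ι d b) := by ring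
  show D (D (ι d a / ι d b)) = 0
  rw [e]
  exact hDD_mul _ _ (hB a) hinv

end

/-- regularity at the prime `π` of `S` -/
def Reg (π : SS d) (f : FF d) : Prop :=
  ∃ b c : SS d, ¬ π ∣ b ∧ algebraMap (SS d) (FF d) b * f = algebraMap (SS d) (FF d) c

theorem Reg.of {π : SS d} (hπ : Prime π) (s : SS d) : Reg d π (algebraMap (SS d) (FF d) s) :=
  ⟨1, s, hπ.not_dvd_one, by rw [map_one, one_mul]⟩

theorem Reg.add {π : SS d} (hπ : Prime π) {f f' : FF d} (h : Reg d π f) (h' : Reg d π f') :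
    Reg d π (f + f') := by
  obtain ⟨b, c, hb, hc⟩ := h
  obtain ⟨b', c', hb', hc'⟩ := h'
  refine ⟨b * b', b' * c + b * c', fun h => (hπ.dvd_or_dvd h).elim hb hb', ?_⟩
  simp only [map_add, map_mul]
  rw [← hc, ← hc']; ring

theorem Reg.mul {π : SS d} (hπ : Prime π) {f f' : FF d} (h : Reg d π f) (h' : Reg d π f') :
    Reg d π (f * f') := by
  obtain ⟨b, c, hb, hc⟩ := h
  obtain ⟨b', c', hb', hc'⟩ := h'
  refine ⟨b * b', c * c', fun h => (hπ.dvd_or_dvd h).elim hb hb', ?_⟩
  simp only [map_mul]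
  rw [← hc, ← hc']; ring

theorem Reg.inv {π s : SS d} (hs : ¬ π ∣ s) :
    Reg d π (1 / algebraMap (SS d) (FF d) s) := by
  refine ⟨s, 1, hs, ?_⟩
  rw [map_one]
  apply mul_one_div_cancel
  intro h
  apply hs
  rw [injSF d (h.trans (map_zero _).symm)]
  exact dvd_zero _

/-- A representative in `B` of a prime of `S`. -/
theorem exists_rep' (π : SS d) (hπ : Prime π) : ∃ ρ : BB d, Prime ρ ∧
    Associated (algebraMap (BB d) (SS d) ρ) π ∧
    ∀ b : BB d, π ∣ algebraMap (BB d) (SS d) b ↔ ρ ∣ b := by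
  have key : ∀ b : BB d, b ≠ 0 → π ∣ algebraMap (BB d) (SS d) b →
      ∃ ρ : BB d, Prime ρ ∧ ρ ∣ b ∧ π ∣ algebraMap (BB d) (SS d) ρ := by
    intro b
    induction b using UniqueFactorizationMonoid.induction_on_prime with
    | h₁ => intro h; exact absurd rfl h
    | h₂ x hx =>
      intro _ h
      exact absurd (isUnit_of_dvd_unit h (hx.map _)) hπ.not_isUnit
    | h₃ a p ha hp ih =>
      intro _ h
      rw [map_mul] at h
      rcases hπ.dvd_or_dvd h with h | h
      · exact ⟨p, hp, dvd_mul_right _ _, h⟩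
      · obtain ⟨ρ, h1, h2, h3⟩ := ih ha h
        exact ⟨ρ, h1, h2.mul_left _, h3⟩
  obtain ⟨⟨b, w⟩, hb⟩ := IsLocalization.surj (W d) π
  simp only at hb
  have hb0 : b ≠ 0 := by
    rintro rfl
    rw [map_zero] at hb
    rcases mul_eq_zero.1 hb with h | h
    · exact hπ.ne_zero h
    · exact nonZeroDivisors.ne_zero (W_le d w.2) (injBS d (h.trans (map_zero _).symm))
  have hwu : IsUnit (algebraMap (BB d) (SS d) w) := IsLocalization.map_units (SS d) w
  obtain ⟨ρ, hρ, hρb, hπρ⟩ := key b hb0 (by rw [← hb]; exact dvd_mul_right _ _)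
  have hρπ : algebraMap (BB d) (SS d) ρ ∣ π := by
    have h1 : algebraMap (BB d) (SS d) ρ ∣ algebraMap (BB d) (SS d) b := map_dvd _ hρb
    rw [← hb] at h1
    exact (hwu.dvd_mul_right).1 h1
  have hass : Associated (algebraMap (BB d) (SS d) ρ) π := associated_of_dvd_dvd hρπ hπρ
  refine ⟨ρ, hρ, hass, fun b' => ⟨fun h => ?_, fun h => ?_⟩⟩
  · have h1 : algebraMap (BB d) (SS d) ρ ∣ algebraMap (BB d) (SS d) b' := hρπ.trans h
    obtain ⟨s, hs⟩ := h1
    obtain ⟨⟨c, w'⟩, hc⟩ := IsLocalization.surj (W d) s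
    simp only at hc
    have h2 : b' * w' = ρ * c := by
      apply injBS d
      rw [map_mul, map_mul, hs, mul_assoc, hc]
    have h3 : ρ ∣ b' * w' := ⟨c, h2⟩
    rcases hρ.dvd_or_dvd h3 with h | h
    · exact h
    · exfalso
      have h4 : algebraMap (BB d) (SS d) ρ ∣ algebraMap (BB d) (SS d) w' := map_dvd _ h
      have h5 := isUnit_of_dvd_unit h4 (IsLocalization.map_units (SS d) w')
      exact hπ.not_isUnit (isUnit_of_dvd_unit hπρ h5)
  · exact hπρ.trans (map_dvd _ h)

section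

variable (g : ℕ → BB d) (hg : ∀ n, g n ∈ Bn d n) (hg0 : ∀ n, g n ≠ 0)
  (hgs : ∀ n, Squarefree (algebraMap (BB d) (SS d) (g n)))
  (hge : ∀ b : BB d, b ≠ 0 → Squarefree (algebraMap (BB d) (SS d) b) → ∃ n, g n = b)
  (D : FF d →+ FF d) (hD : ∀ a b, D (a * b) = a * D b + b * D a)
  (hx : ∀ j, D (ι d (xv d j)) = 0)
  (hu : ∀ n, D (ι d (uv d n)) = ι d (uv d n) / ι d (g n) * D (ι d (g n)))
  (hy : ∀ n, D (ι d (yv d n)) = 1 / (ι d (uv d n) * ι d (g n)))
  (π : SS d) (hπ : Prime π) (ρ : BB d) (hρ : Prime ρ)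
  (hass : Associated (algebraMap (BB d) (SS d) ρ) π)
  (hdvd : ∀ b : BB d, π ∣ algebraMap (BB d) (SS d) b ↔ ρ ∣ b)

theorem reg_ι {π : SS d} (hπ : Prime π) (b : BB d) : Reg d π (ι d b) := by
  rw [ι_apply]; exact Reg.of d hπ _

include hdvd in
theorem reg_inv {b : BB d} (hb : ¬ ρ ∣ b) : Reg d π (1 / ι d b) := by
  rw [ι_apply]
  exact Reg.inv d (fun h => hb ((hdvd b).1 h))

include hπ hdvd in
theorem not_dvd_u (i : ℕ) : ¬ ρ ∣ uv d i := by
  intro h
  exact hπ.not_isUnit (isUnit_of_dvd_unit ((hdvd _).2 h) (isUnit_uv d i))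

include hg hg0 hD hx hu hy hπ hρ hdvd in
theorem reg_D_of_notMem (N : ℕ) : ρ ∉ Bn d N → ∀ b ∈ Bn d N, Reg d π (D (ι d b)) := by
  induction N using Nat.strong_induction_on with
  | _ N ih =>
    intro hN b hb
    have hzero : Reg d π (0 : FF d) := by
      have := Reg.of d hπ (0 : SS d)
      rwa [map_zero] at this
    have hdg : ∀ i < N, ¬ ρ ∣ g i := by
      intro i hi h
      exact hN (Bn_mono d hi.le (Bn_of_dvd d (hg i) (hg0 i) h))
    refine Bn_induction d (fun b => Reg d π (D (ι d b))) ?_ ?_ ?_ ?_ ?_ ?_ b hb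
    · intro c; simp only [D_C d D hD]; exact hzero
    · intro j; simp only [hx]; exact hzero
    · intro i hi
      show Reg d π (D (ι d (uv d i)))
      have e : D (ι d (uv d i)) = ι d (uv d i) * (1 / ι d (g i)) * D (ι d (g i)) := by
        rw [hu]; ring
      rw [e]
      exact Reg.mul d hπ (Reg.mul d hπ (reg_ι d hπ _) (reg_inv d π ρ hdvd (hdg i hi)))
        (ih i hi (fun h => hN (Bn_mono d hi.le h)) (g i) (hg i))
    · intro i hi
      show Reg d π (D (ι d (yv d i)))
      have e : D (ι d (yv d i)) = 1 / ι d (uv d i) * (1 / ι d (g i)) := by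
        rw [hy]; ring
      rw [e]
      exact Reg.mul d hπ (reg_inv d π ρ hdvd (not_dvd_u d π hπ ρ hdvd i))
        (reg_inv d π ρ hdvd (hdg i hi))
    · intro a b ha hb
      rw [map_add, map_add]
      exact Reg.add d hπ ha hb
    · intro a b ha hb
      rw [map_mul, hD]
      exact Reg.add d hπ (Reg.mul d hπ (reg_ι d hπ _) hb) (Reg.mul d hπ (reg_ι d hπ _) ha)

include hg hg0 hD hx hu hy hπ hρ hdvd in
theorem reg_D_ρ : Reg d π (D (ι d ρ)) := by
  classical
  have hex := exists_mem_Bn d ρ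
  let N := Nat.find hex
  have hN : ρ ∈ Bn d N := Nat.find_spec hex
  have hmin : ∀ m < N, ρ ∉ Bn d m := fun m hm => Nat.find_min hex hm
  have hzero : Reg d π (0 : FF d) := by
    have := Reg.of d hπ (0 : SS d)
    rwa [map_zero] at this
  have hdg : ∀ i < N, ¬ ρ ∣ g i := by
    intro i hi h
    exact hmin i hi (Bn_of_dvd d (hg i) (hg0 i) h)
  refine Bn_induction d (fun b => Reg d π (D (ι d b))) ?_ ?_ ?_ ?_ ?_ ?_ ρ hN
  · intro c; simp only [D_C d D hD]; exact hzero
  · intro j; simp only [hx]; exact hzero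
  · intro i hi
    show Reg d π (D (ι d (uv d i)))
    have e : D (ι d (uv d i)) = ι d (uv d i) * (1 / ι d (g i)) * D (ι d (g i)) := by
      rw [hu]; ring
    rw [e]
    exact Reg.mul d hπ (Reg.mul d hπ (reg_ι d hπ _) (reg_inv d π ρ hdvd (hdg i hi)))
      (reg_D_of_notMem d g hg hg0 D hD hx hu hy π hπ ρ hρ hdvd i (hmin i hi) (g i) (hg i))
  · intro i hi
    show Reg d π (D (ι d (yv d i)))
    have e : D (ι d (yv d i)) = 1 / ι d (uv d i) * (1 / ι d (g i)) := by
      rw [hy]; ring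
    rw [e]
    exact Reg.mul d hπ (reg_inv d π ρ hdvd (not_dvd_u d π hπ ρ hdvd i))
      (reg_inv d π ρ hdvd (hdg i hi))
  · intro a b ha hb
    rw [map_add, map_add]
    exact Reg.add d hπ ha hb
  · intro a b ha hb
    rw [map_mul, hD]
    exact Reg.add d hπ (Reg.mul d hπ (reg_ι d hπ _) hb) (Reg.mul d hπ (reg_ι d hπ _) ha)

include hg hg0 hgs hD hx hu hy hπ hρ hass hdvd in
theorem reg_ρ_D (N : ℕ) : ∀ b ∈ Bn d N, Reg d π (ι d ρ * D (ι d b)) := by
  have hρreg := reg_D_ρ d g hg hg0 D hD hx hu hy π hπ ρ hρ hdvd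
  induction N using Nat.strong_induction_on with
  | _ N ih =>
    intro b hb
    have hzero : Reg d π (0 : FF d) := by
      have := Reg.of d hπ (0 : SS d)
      rwa [map_zero] at this
    -- squarefree: the cofactor is not divisible
    have hco : ∀ i c, g i = ρ * c → ¬ ρ ∣ c := by
      rintro i c hc ⟨c', rfl⟩
      have h1 : algebraMap (BB d) (SS d) ρ * algebraMap (BB d) (SS d) ρ ∣
          algebraMap (BB d) (SS d) (g i) := by
        rw [hc, ← map_mul]
        exact map_dvd _ ⟨c', by ring⟩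
      have h2 := hgs i _ h1
      exact hπ.not_isUnit (hass.isUnit h2)
    refine Bn_induction d (fun b => Reg d π (ι d ρ * D (ι d b))) ?_ ?_ ?_ ?_ ?_ ?_ b hb
    · intro c; simp only [D_C d D hD, mul_zero]; exact hzero
    · intro j; simp only [hx, mul_zero]; exact hzero
    · intro i hi
      show Reg d π (ι d ρ * D (ι d (uv d i)))
      by_cases hdi : ρ ∣ g i
      · obtain ⟨c, hc⟩ := hdi
        have hcmem : c ∈ Bn d i := Bn_of_dvd d (hg i) (hg0 i) ⟨ρ, by rw [hc]; ring⟩
        have hρ0 := ι_ne d hρ.ne_zero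
        have hc0 : ι d c ≠ 0 := by
          apply ι_ne
          rintro rfl
          exact hg0 i (by rw [hc, mul_zero])
        have e : ι d ρ * D (ι d (uv d i)) = ι d (uv d i) * (1 / ι d c) *
            (ι d ρ * D (ι d c) + ι d c * D (ι d ρ)) := by
          rw [hu, hc, map_mul, hD]; field_simp
        rw [e]
        exact Reg.mul d hπ (Reg.mul d hπ (reg_ι d hπ _) (reg_inv d π ρ hdvd (hco i c hc)))
          (Reg.add d hπ (ih i hi c hcmem) (Reg.mul d hπ (reg_ι d hπ _) hρreg))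
      · have e : ι d ρ * D (ι d (uv d i)) =
            ι d (uv d i) * (1 / ι d (g i)) * (ι d ρ * D (ι d (g i))) := by
          rw [hu]; ring
        rw [e]
        exact Reg.mul d hπ (Reg.mul d hπ (reg_ι d hπ _) (reg_inv d π ρ hdvd hdi))
          (ih i hi (g i) (hg i))
    · intro i hi
      show Reg d π (ι d ρ * D (ι d (yv d i)))
      by_cases hdi : ρ ∣ g i
      · obtain ⟨c, hc⟩ := hdi
        have hρ0 := ι_ne d hρ.ne_zero
        have hc0 : ι d c ≠ 0 := by
          apply ι_ne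
          rintro rfl
          exact hg0 i (by rw [hc, mul_zero])
        have e : ι d ρ * D (ι d (yv d i)) = 1 / ι d (uv d i) * (1 / ι d c) := by
          rw [hy, hc, map_mul]; field_simp
        rw [e]
        exact Reg.mul d hπ (reg_inv d π ρ hdvd (not_dvd_u d π hπ ρ hdvd i))
          (reg_inv d π ρ hdvd (hco i c hc))
      · have e : ι d ρ * D (ι d (yv d i)) =
            ι d ρ * (1 / ι d (uv d i) * (1 / ι d (g i))) := by
          rw [hy]; ring
        rw [e]
        exact Reg.mul d hπ (reg_ι d hπ _)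
          (Reg.mul d hπ (reg_inv d π ρ hdvd (not_dvd_u d π hπ ρ hdvd i))
            (reg_inv d π ρ hdvd hdi))
    · intro a b ha hb
      rw [map_add, map_add, mul_add]
      exact Reg.add d hπ ha hb
    · intro a b ha hb
      have e : ι d ρ * D (ι d (a * b)) =
          ι d a * (ι d ρ * D (ι d b)) + ι d b * (ι d ρ * D (ι d a)) := by
        rw [map_mul, hD]; ring
      rw [e]
      exact Reg.add d hπ (Reg.mul d hπ (reg_ι d hπ _) hb) (Reg.mul d hπ (reg_ι d hπ _) ha)

include hg hg0 hgs hD hx hu hy hπ in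
theorem reg_final (s : SS d) (hs : π ∣ s) : Reg d π (D (algebraMap (SS d) (FF d) s)) := by
  obtain ⟨ρ, hρ, hass, hdvd⟩ := exists_rep' d π hπ
  obtain ⟨⟨b, w⟩, hb⟩ := IsLocalization.surj (W d) s
  simp only at hb
  have hall : ∀ b : BB d, Reg d π (ι d ρ * D (ι d b)) := by
    intro b
    obtain ⟨N, hN⟩ := exists_mem_Bn d b
    exact reg_ρ_D d g hg hg0 hgs D hD hx hu hy π hπ ρ hρ hass hdvd N b hN
  have hρreg := reg_D_ρ d g hg hg0 D hD hx hu hy π hπ ρ hρ hdvd
  have hπb : ρ ∣ b := by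
    rw [← hdvd, ← hb]
    exact hs.mul_right _
  obtain ⟨c, rfl⟩ := hπb
  obtain ⟨t, rfl⟩ := hs
  obtain ⟨u, hu'⟩ := hass
  have hw0 : ι d (w : BB d) ≠ 0 := ι_ne d (nonZeroDivisors.ne_zero (W_le d w.2))
  have hwπ : ¬ ρ ∣ (w : BB d) := by
    intro h
    exact hπ.not_isUnit (isUnit_of_dvd_unit ((hdvd _).2 h)
      (IsLocalization.map_units (SS d) w))
  have e1 : algebraMap (SS d) (FF d) (π * t) * ι d (w : BB d) = ι d (ρ * c) := by
    rw [ι_apply, ι_apply, ← map_mul, hb]
  have e2 := congrArg D e1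
  rw [hD, map_mul (ι d) ρ c, hD] at e2
  have e3 : algebraMap (SS d) (FF d) (π * t) =
      algebraMap (SS d) (FF d) (u * t) * ι d ρ := by
    rw [ι_apply, ← map_mul, ← hu']; congr 1; ring
  have e4 : D (algebraMap (SS d) (FF d) (π * t)) = 1 / ι d (w : BB d) *
      ((ι d ρ * D (ι d c) + ι d c * D (ι d ρ)) -
        algebraMap (SS d) (FF d) (u * t) * (ι d ρ * D (ι d (w : BB d)))) := by
    rw [← e2, e3]; field_simp; ring
  rw [e4, sub_eq_add_neg]
  have hneg : -(algebraMap (SS d) (FF d) (u * t) * (ι d ρ * D (ι d (w : BB d)))) =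
      algebraMap (SS d) (FF d) (-(u * t)) * (ι d ρ * D (ι d (w : BB d))) := by
    rw [map_neg]; ring
  rw [hneg]
  exact Reg.mul d hπ (reg_inv d π ρ hdvd hwπ) (Reg.add d hπ
    (Reg.add d hπ (hall c) (Reg.mul d hπ (reg_ι d hπ _) hρreg))
    (Reg.mul d hπ (Reg.of d hπ _) (hall _)))

end

theorem exists_data : Nonempty (Data (SS d) (FF d)) := by
  obtain ⟨g, hg, hge⟩ := exists_enum d
  obtain ⟨D, hD, hx, hu, hy⟩ := exists_derivation d g (fun n => (hg n).1)
  refine ⟨⟨D, hD, DD d g (fun n => (hg n).1) (fun n => (hg n).2.1) D hD hx hu hy, ?_, ?_⟩⟩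
  · intro h h0 hsq
    obtain ⟨⟨b, w⟩, hb⟩ := IsLocalization.surj (W d) h
    simp only at hb
    have hwu : IsUnit (algebraMap (BB d) (SS d) w) := IsLocalization.map_units (SS d) w
    have hassoc : Associated h (algebraMap (BB d) (SS d) b) := by
      rw [← hb]
      exact (associated_mul_unit_right h _ hwu)
    have hb0 : b ≠ 0 := by
      rintro rfl
      rw [map_zero] at hassoc
      exact h0 (associated_zero_iff_eq_zero h |>.1 hassoc)
    have hbsq : Squarefree (algebraMap (BB d) (SS d) b) := hsq.squarefree_of_dvd hassoc.symm.dvd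
    obtain ⟨n, hn⟩ := hge b hb0 hbsq
    refine ⟨algebraMap (BB d) (SS d) (uv d n * g n), algebraMap (BB d) (SS d) (yv d n), ?_, ?_⟩
    · rw [map_mul, hn]
      exact (associated_unit_mul_left _ _ (isUnit_uv d n)).trans hassoc.symm
    · rw [← ι_apply, ← ι_apply, hy, map_mul]
      have h1 := ι_ne d (uv_ne d n)
      have h2 := ι_ne d (hg n).2.1
      field_simp
  · intro π s hπ hs
    exact reg_final d g (fun n => (hg n).1) (fun n => (hg n).2.1) (fun n => (hg n).2.2) D hD hx hu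
      hy π hπ s hs

theorem exists_ring : ∃ (R : Type) (_ : CommRing R) (_ : IsDomain R), IsNoetherianRing R ∧
    ringKrullDim R = d ∧ IsSeminormal R ∧
    ∀ p : Ideal R, p.IsPrime → p.height = 1 → IsAssocNormal R p := by
  obtain ⟨Δ⟩ := exists_data d
  obtain ⟨h1, h2, h3, h4⟩ := Δ.conclusion
  refine ⟨Δ.R, inferInstance, inferInstance, h1, ?_, h3, h4⟩
  rw [h2, MvPolynomial.ringKrullDim_of_isNoetherianRing, ringKrullDim_eq_zero_of_field]
  simp

end Pool.Agent.R830.Semi
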